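import Pool.Agent.X255.RH.Loc
import Pool.Agent.Y776.Cv.Var
import Pool.Agent.Y776.Cv.Pad
import Pool.Agent.TH813.EKPer

/-!
# The elliptico-toric conjecture at almost all algebraic points of analytic families, jointly for all conjugates

Let `Λ_z` be a family of lattices with periods `ω₁(z), ω₂(z)`, analytic functions on a connected open set `V` whose
quotient is not constant, let `p_1, …, p_r` be analytic functions on `V` which are independent modulo the lattices (no
nontrivial combination `∑ n_i p_i(z)` with integral coefficients is in `Λ_z` for all `z`) and let `t_1, …, t_s` be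
analytic functions no nontrivial combination of which with integral coefficients is constant. There is no other
condition on these functions; `g₂, g₃`, `℘(p_i)`, `exp(t_k)` need not be algebraic.

For each `z` the elliptico-toric conjecture says that in general the transcendence degree of the field generated by
`g₂, g₃, ω₁, ω₂, η₁, η₂`, `p_i, ℘(p_i), ζ(p_i)`, `t_k, exp(t_k)` is at least `4 + 2 r + s`, hence at least `3 + 2 r + s`
over `ℚ(π)`. We show that there are `3 + 2 r + s` fixed functions among them such that for 100% of the integral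
polynomials of any degree `g`, ordered by the maximum `T` of the absolute values of the coefficients, the values of these
functions at all roots of the polynomial in `V` (at distance at least `1 / (ω (T) + 1)` from the complement of `V`) satisfy
no relation whose degree, and the degree of whose coefficient field, is at most `ω (T)`, and whose coefficients are of
size at most `T ^ ω (T)`, where `ω (T) → ∞`; the coefficients may also contain arbitrary fixed complex numbers `ξ_b`, for
instance the powers of `π`.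

Proof: `Pool.Agent.X255.NP` (the norm to `ℚ` of a relation over the field generated by all roots, a nonstandard version of
the Bombieri-Pila method), the algebraic independence of the functions (`Pool.Agent.Y776.Cv`), and `Pool.Agent.X255.RH`
(independence of functions of different variables; almost no integral polynomial has close roots).
-/

set_option autoImplicit false

open Polynomial Filter NumberField
open scoped Classical PeriodPair

namespace Pool.Agent.Results.MP_8da9ea_nt.AlmostAllConjugateFibres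

/-- The Weierstrass zeta function `ζ(z) = ∑ (1/(z-l) + 1/l + z/l²)`, the sum over the lattice (the summand of `l = 0` is
`1/z`, since `1/0 = 0` in Lean). -/
noncomputable def ζ (L : PeriodPair) (z : ℂ) : ℂ :=
  ∑' l : L.lattice, (1 / (z - l) + 1 / l + z / l ^ 2)

/-- An analytic family of lattices with points and exponents. -/
structure Family (U : Set ℂ) {r s : ℕ} (Λ : ℂ → PeriodPair) (p : Fin r → ℂ → ℂ) (t : Fin s → ℂ → ℂ) : Prop where
  isOpen : IsOpen U
  isPreconnected : IsPreconnected U
  nonempty : U.Nonempty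
  /-- the lattice depends analytically on `z` -/
  analytic₁ : AnalyticOnNhd ℂ (fun z => (Λ z).ω₁) U
  analytic₂ : AnalyticOnNhd ℂ (fun z => (Λ z).ω₂) U
  /-- the quotient of the periods is not constant -/
  nonconstant : ∀ c : ℂ, ∃ z ∈ U, (Λ z).ω₂ / (Λ z).ω₁ ≠ c
  /-- the functions are analytic and the points of the elliptic curves are not zero -/
  analytic_p : ∀ i, AnalyticOnNhd ℂ (p i) U
  p_notMem : ∀ i, ∀ z ∈ U, p i z ∉ (Λ z).lattice
  analytic_t : ∀ k, AnalyticOnNhd ℂ (t k) U
  /-- the points are independent modulo torsion -/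
  independent_p : ∀ n : Fin r → ℤ, (∀ z ∈ U, ∑ i, (n i : ℂ) * p i z ∈ (Λ z).lattice) → n = 0
  /-- no nontrivial combination with integral coefficients of the `t_k` is constant -/
  independent_t : ∀ (m : Fin s → ℤ) (b : ℂ), (∀ z ∈ U, ∑ k, (m k : ℂ) * t k z = b) → m = 0

/-- The names of the functions `ω₁, ω₂, η₁, g₂, g₃`, `p_i`, `℘(p_i)`, `ζ(p_i)`, `t_k`, `exp(t_k)`. -/
inductive Name (r s : ℕ) : Type
  | omega₁ : Name r s
  | omega₂ : Name r s
  | eta₁ : Name r s
  | g₂ : Name r s
  | g₃ : Name r s
  | p : Fin r → Name r s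
  | wp : Fin r → Name r s
  | zeta : Fin r → Name r s
  | t : Fin s → Name r s
  | expt : Fin s → Name r s

/-- The values of the functions at the point `z`; here `η₁ = 2 ζ(ω₁ / 2)` (and `η₂` is determined by Legendre's
relation `ω₂ η₁ - ω₁ η₂ = ± 2 π i`). -/
noncomputable def value {r s : ℕ} (Λ : ℂ → PeriodPair) (p : Fin r → ℂ → ℂ) (t : Fin s → ℂ → ℂ) (z : ℂ) :
    Name r s → ℂ
  | Name.omega₁ => (Λ z).ω₁
  | Name.omega₂ => (Λ z).ω₂
  | Name.eta₁ => 2 * ζ (Λ z) ((Λ z).ω₁ / 2)
  | Name.g₂ => (Λ z).g₂
  | Name.g₃ => (Λ z).g₃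
  | Name.p i => p i z
  | Name.wp i => ℘[Λ z] (p i z)
  | Name.zeta i => ζ (Λ z) (p i z)
  | Name.t k => t k z
  | Name.expt k => Complex.exp (t k z)


/-- the polynomial `a_g X ^ g + … + a_0` -/
noncomputable def poly {g : ℕ} (a : Fin (g + 1) → ℤ) : ℂ[X] := ∑ i, C (a i : ℂ) * X ^ (i : ℕ)

/-- the roots of the polynomial in the set `V` -/
noncomputable def rootsIn (V : Set ℂ) {g : ℕ} (a : Fin (g + 1) → ℤ) : Finset ℂ :=
  (poly a).roots.toFinset.filter fun z => z ∈ V

/-- The numbers `x q`, `q ∈ Q`, satisfy no relation of degree at most `k` in each of them with coefficients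
`∑ ξ b * c b`, `b < k`, where the `c b` are integers of a number field of degree at most `k`, all of whose conjugates
are of absolute value at most `T ^ k`, except the relations all of whose coefficients vanish. -/
def Unrelated {Q : Type} [Fintype Q] [DecidableEq Q] (ξ : ℕ → ℂ) (k : ℕ) (T : ℝ) (x : Q → ℂ) : Prop :=
  ∀ (F : Type) [Field F] [NumberField F], Module.finrank ℚ F ≤ k → ∀ (io : F →+* ℂ)
    (c : (Q → Fin (k + 1)) → Fin k → 𝓞 F), (∀ l b (φ : F →+* ℂ), ‖φ (c l b : F)‖ ≤ T ^ k) →
    ∑ l, (∑ b : Fin k, ξ b * io (c l b : F)) * ∏ q, x q ^ (l q : ℕ) = 0 → ∀ l, ∑ b : Fin k, ξ b * io (c l b : F) = 0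

/-- the `a` with `|a_i| ≤ T` -/
noncomputable def box (g T : ℕ) : Finset (Fin (g + 1) → ℤ) := Fintype.piFinset fun _ => Finset.Icc (-(T : ℤ)) T

/-- the points whose distance to the complement of `V` is at least `1 / (k + 1)` -/
def region (V : Set ℂ) (k : ℕ) : Set ℂ := {z | Metric.ball z (1 / ((k : ℝ) + 1)) ⊆ V}

/-- the values of the functions with names `e_1, …, e_m` at all roots of `a` in the set `V` are unrelated up to
complexity `k` -/
def Free {g r s m : ℕ} (V : Set ℂ) (Λ : ℂ → PeriodPair) (p : Fin r → ℂ → ℂ) (t : Fin s → ℂ → ℂ) (e : Fin m → Name r s)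
    (ξ : ℕ → ℂ) (k : ℕ) (T : ℝ) (a : Fin (g + 1) → ℤ) : Prop :=
  Unrelated ξ k T fun q : {z // z ∈ rootsIn V a} × Fin m => value Λ p t q.1 (e q.2)

/-- `a` is of degree `g`, with simple roots, and `Free` for the roots in `region V k` -/
def Good {g r s m : ℕ} (V : Set ℂ) (Λ : ℂ → PeriodPair) (p : Fin r → ℂ → ℂ) (t : Fin s → ℂ → ℂ) (e : Fin m → Name r s) (ξ : ℕ → ℂ) (k : ℕ) (T : ℝ) (a : Fin (g + 1) → ℤ) : Prop :=
  a (Fin.last g) ≠ 0 ∧ (poly a).Separable ∧ Free (region V k) Λ p t e ξ k T a

/-- `a` is of degree `g`, its roots are simple, of absolute value at most `R`, at distance at least `η` from each other,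
and the roots in `V` are at distance at least `η` from the complement of `V` -/
def Position (V : Set ℂ) (R η : ℝ) {g : ℕ} (a : Fin (g + 1) → ℤ) : Prop :=
  a (Fin.last g) ≠ 0 ∧ (poly a).Separable ∧ ∀ z, (poly a).eval z = 0 → ‖z‖ ≤ R ∧
    (∀ w, (poly a).eval w = 0 → w ≠ z → η ≤ ‖z - w‖) ∧ (z ∈ V → Metric.ball z η ⊆ V)

theorem exists_name (r s : ℕ) : ∃ f : Pool.Agent.Y776.Cv.Nv r s → Name r s, Function.Injective f ∧
    ∀ (Λ : ℂ → PeriodPair) (p : Fin r → ℂ → ℂ) (t : Fin s → ℂ → ℂ) (z : ℂ) (i : Pool.Agent.Y776.Cv.Nv r s),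
      value Λ p t z (f i) = Pool.Agent.Y776.Cv.yv Λ p t i z := by
  let f : Pool.Agent.Y776.Cv.Nv r s → Name r s :=
    Sum.elim ![Name.omega₁, Name.omega₂, Name.eta₁, Name.g₂, Name.g₃] (Sum.elim Name.p (Sum.elim Name.zeta
      (Sum.elim Name.wp (Sum.elim Name.t Name.expt))))
  let g : Name r s → Pool.Agent.Y776.Cv.Nv r s := fun a => match a with
    | Name.omega₁ => Sum.inl 0
    | Name.omega₂ => Sum.inl 1
    | Name.eta₁ => Sum.inl 2
    | Name.g₂ => Sum.inl 3
    | Name.g₃ => Sum.inl 4
    | Name.p i => Sum.inr (Sum.inl i)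
    | Name.zeta i => Sum.inr (Sum.inr (Sum.inl i))
    | Name.wp i => Sum.inr (Sum.inr (Sum.inr (Sum.inl i)))
    | Name.t k => Sum.inr (Sum.inr (Sum.inr (Sum.inr (Sum.inl k))))
    | Name.expt k => Sum.inr (Sum.inr (Sum.inr (Sum.inr (Sum.inr k))))
  have hg : Function.LeftInverse g f := by
    rintro (a | a | a | a | a | a)
    · fin_cases a <;> rfl
    all_goals rfl
  refine ⟨f, hg.injective, ?_⟩
  rintro Λ p t z (a | a | a | a | a | a)
  · fin_cases a
    · rfl
    · rfl
    · exact (Pool.Agent.TH813.Ell.eta_half (Λ z).ω₁_mem_lattice (Pool.Agent.TH813.Ell.half₁ (Λ z))).symm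
    · rfl
    · rfl
  all_goals rfl


/-- **Theorem.** Let `(Λ, p, t)` be an analytic family of lattices, points and exponents on `V`. There are `3 + 2 r + s`
different functions among the `5 + 3 r + 2 s` functions of the family such that for all `g ≥ 1` and all sequences `ξ` of
complex numbers:
(1) There is a monotone `ω`, `ω(T) → ∞`, such that the proportion of the polynomials with `|a_i| ≤ T` which are not
`Good` with `k = ω(T)` is at most `1 / ω(T)`.
(2) For fixed `k`, `R`, `η > 0` and `ε > 0`, all but `C T ^ (g + ε)` of the polynomials with `|a_i| ≤ T` whose roots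
are in the compact position `Position V R η` are `Free` for the roots in `V` (there are about `(2 T) ^ (g + 1)`
polynomials). -/
theorem result {r s : ℕ} (V : Set ℂ) (Λ : ℂ → PeriodPair) (p : Fin r → ℂ → ℂ) (t : Fin s → ℂ → ℂ)
    (hF : Family V Λ p t) : ∃ e : Fin (3 + 2 * r + s) → Name r s, Function.Injective e ∧
    ∀ (g : ℕ), 0 < g → ∀ (ξ : ℕ → ℂ),
    (∃ ω : ℕ → ℕ, Tendsto ω atTop atTop ∧ Monotone ω ∧ ∀ T,
      ω T * ((box g T).filter fun a => ¬ Good V Λ p t e ξ (ω T) T a).card ≤ (box g T).card) ∧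
    ∀ (k : ℕ) (R η ε : ℝ), 0 < η → 0 < ε → ∃ C : ℝ, ∀ T : ℕ, 1 ≤ T →
      (((box g T).filter fun a => Position V R η a ∧ ¬ Free V Λ p t e ξ k T a).card : ℝ) ≤
        C * (T : ℝ) ^ ((g : ℝ) + ε) := by
  have hX : Pool.Agent.Y776.Cv.FxV V Λ p t :=
    { isOpen := hF.isOpen, conn := hF.isPreconnected, an₁ := hF.analytic₁, an₂ := hF.analytic₂
      nr := hF.nonconstant, ua := hF.analytic_p, un := hF.p_notMem, ui := hF.independent_p
      la := hF.analytic_t, li := hF.independent_t }
  have hsub : ∃ e : Fin (3 + 2 * r + s) → Pool.Agent.Y776.Cv.Nv r s, Function.Injective e ∧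
      ∀ t' ∈ V, Pool.Agent.Y124.LocInd (fun k => Pool.Agent.Y776.Cv.yv Λ p t (e k)) t' := by
    have h1 : 3 + 2 * r + s = 3 + (s + 2 * r) := by ring
    rw [h1]
    exact Pool.Agent.Y776.Cv.var_sub hX hF.nonempty
  obtain ⟨e, he, hL⟩ := hsub
  obtain ⟨nm, hnm, hv'⟩ := exists_name r s
  have hv : ∀ z i, value Λ p t z (nm i) = Pool.Agent.Y776.Cv.yv Λ p t i z := fun z i => hv' Λ p t z i
  refine ⟨fun k => nm (e k), hnm.comp he, fun g hg ξ => ?_⟩
  have hpre : IsPreconnected V := hF.isPreconnected
  have hop : IsOpen V := hF.isOpen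
  have hfun : (fun (w : Fin (3 + 2 * r + s)) z => value Λ p t z (nm (e w))) =
      fun w => Pool.Agent.Y776.Cv.yv Λ p t (e w) := by
    funext w z
    exact hv z (e w)
  have han : ∀ w : Fin (3 + 2 * r + s), AnalyticOnNhd ℂ (fun z => value Λ p t z (nm (e w))) V := by
    intro w
    have h1 := Pool.Agent.Y776.Cv.yv_an hX (e w)
    have h2 : (fun z => value Λ p t z (nm (e w))) = Pool.Agent.Y776.Cv.yv Λ p t (e w) := congrFun hfun w
    rw [h2]
    exact h1
  have hind : Pool.Agent.X255.RH.Indep V (fun (w : Fin (3 + 2 * r + s)) z => value Λ p t z (nm (e w))) := by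
    rw [hfun]
    exact Pool.Agent.X255.RH.indep_of_loc hop hF.nonempty hL
  have h1 := Pool.Agent.X255.RH.main_all (g := g) hg hpre hop (region V) (Pool.Agent.X255.RH.tame_deep V) han hind ξ
  refine ⟨h1, fun k R η ε hη hε => ?_⟩
  have h2 := Pool.Agent.X255.RH.main_eps (g := g) hg hpre hop han hind V ξ k R η ε hη hε
  exact h2

end Pool.Agent.Results.MP_8da9ea_nt.AlmostAllConjugateFibres
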