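import Pool.Agent.X39.Near.MasterI
import Pool.Agent.Results.MP_8da9ea_nt.AnalyticFamilies

/-!
# The elliptico-toric conjecture at ALL algebraic points of an analytic family close to any point outside a set of dimension zero

Let `Λ_z` be a family of lattices with periods `ω₁(z), ω₂(z)`, analytic functions on a connected open set `U` whose
quotient is not constant, let `p_1, …, p_r` be analytic functions on `U` which are independent modulo the lattices and
let `t_1, …, t_s` be analytic functions no nontrivial combination of which with integral coefficients is constant (no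
other condition: `g₂, g₃`, `℘(p_i)`, `exp(t_k)` need not be algebraic). One can choose `3 + 2 r + s` of the functions
`ω₁, ω₂, η₁, g₂, g₃`, `p_i, ℘(p_i), ζ(p_i)`, `t_k, exp(t_k)` (the number predicted by the elliptico-toric conjecture over
`ℚ(π)`) such that outside ONE set of complex numbers `x` of Hausdorff dimension `0`, for all number fields `F ⊂ ℂ`, all
`ω > 0`, `d` and `A` there are `B` and `T₁` such that for all `T ≥ T₁` and ALL `z ∈ F` of height at most `T` with
`|z - x| ≤ T ^ (-ω)` the chosen numbers at `z` satisfy no relation of degree at most `d` with coefficients which are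
polynomials of degree at most `d` in the `a_k(z) / w(z)` and in given complex numbers `ξ_i` (for instance `π`), with
coefficients in `F` of height at most `T ^ A`, not even up to `T ^ (-B)`. In particular this holds at the convergents of
all irrational real numbers in `U` outside this set, from some point on.
-/

set_option autoImplicit false

open MeasureTheory NumberField
open Pool.Agent
open Pool.Agent.Results.MP_8da9ea_nt.AnalyticFamilies

namespace Pool.Agent.Results.MP_8da9ea_nt.ApproximationsOfAllNumbers

open Pool.Agent.X39.Near (Size Dependent)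

/-- the chosen functions -/
noncomputable def chosen {r s k : ℕ} (Λ : ℂ → PeriodPair) (p : Fin r → ℂ → ℂ) (t : Fin s → ℂ → ℂ)
    (e : Fin k → Name r s) (i : Fin k) (z : ℂ) : ℂ :=
  value Λ p t z (e i)

/-- **Theorem.** For a family on `U` one can choose `3 + 2 r + s` different functions `e` among the `5 + 3 r + 2 s`
functions of the family, such that for all polynomials `a_k`, `w`, `w` without zeros on `U`, and all complex
`ξ_1, …, ξ_g` there is a set `E` of complex numbers of Hausdorff dimension `0` such
that: (1) for all `x ∈ U` outside `E`, all number fields `F` with an embedding `ι` in `ℂ`, all `d`, `A` and `ω > 0` there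
are `B`, `T₁` such that for all `T ≥ T₁` and all `z ∈ F`, quotients of integers with conjugates at most `T`, with
`|ι z - x| ≤ T ^ (-ω)`, the values of these functions at `z` are not dependent; (2) for all irrational real `x ∈ U`
outside `E` and all `d`, `A` there is `B` such that the values at the convergents of `x` are not dependent over `ℚ`, at
the level of the denominator, from some point on. -/
theorem result {r s : ℕ} (U : Set ℂ) (Λ : ℂ → PeriodPair)
    (p : Fin r → ℂ → ℂ) (t : Fin s → ℂ → ℂ) (hU : Family U Λ p t) :
    ∃ e : Fin (3 + 2 * r + s) → Name r s, Function.Injective e ∧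
      ∀ (m g : ℕ) (a : Fin m → Polynomial ℂ) (w : Polynomial ℂ), (∀ z ∈ U, w.eval z ≠ 0) → ∀ ξ : Fin g → ℂ,
      ∃ E : Set ℂ, dimH E = 0 ∧
        (∀ x ∈ U, x ∉ E → ∀ (F : Type) [Field F] [NumberField F] (ι : F →+* ℂ)
          (d A : ℕ) (ω : ℝ), 0 < ω → ∃ B T₁ : ℝ, ∀ T : ℝ, T₁ ≤ T → ∀ z : F, Size F T z →
            ‖ι z - x‖ ≤ T ^ (-ω) → ¬ Dependent (chosen Λ p t e) a w ξ F ι d A B T z) ∧
        ∀ x : ℝ, Irrational x → (x : ℂ) ∈ U → (x : ℂ) ∉ E → ∀ d A : ℕ, ∃ (B : ℝ) (n₀ : ℕ), ∀ k : ℕ,
          n₀ ≤ k → ¬ Dependent (chosen Λ p t e) a w ξ ℚ (algebraMap ℚ ℂ) d A B (x.convergent k).den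
            (x.convergent k) := by
  classical
  have hF : Y776.Cv.FxV U Λ p t :=
    { isOpen := hU.isOpen, conn := hU.isPreconnected, an₁ := hU.analytic₁, an₂ := hU.analytic₂
      nr := hU.nonconstant, ua := hU.analytic_p, un := hU.p_notMem, ui := hU.independent_p
      la := hU.analytic_t, li := hU.independent_t }
  obtain ⟨e, he, hL⟩ : ∃ e : Fin (3 + 2 * r + s) → Y776.Cv.Nv r s, Function.Injective e ∧
      ∀ t' ∈ U, Y124.LocInd (fun k => Y776.Cv.yv Λ p t (e k)) t' := by
    have h1 : 3 + 2 * r + s = 3 + (s + 2 * r) := by ring
    rw [h1]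
    exact Y776.Cv.var_sub hF hU.nonempty
  obtain ⟨nm, hnm, hv'⟩ := exists_name r s
  have hv : chosen Λ p t (fun k => nm (e k)) = fun k => Y776.Cv.yv Λ p t (e k) := by
    funext k z
    exact hv' Λ p t z (e k)
  refine ⟨fun k => nm (e k), hnm.comp he, fun m g a w hw ξ => ?_⟩
  rw [hv]
  exact Pool.Agent.X39.Near.master U hU.isOpen _ (fun k z hz => Y776.Cv.yv_an hF (e k) z hz) hL a w hw ξ

end Pool.Agent.Results.MP_8da9ea_nt.ApproximationsOfAllNumbers
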