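import Mathlib
import Pool.Agent.Y918.EL.Main
import Pool.Agent.W245.EB.App
import Pool.Agent.W245.Extend

/-!
# The elliptico-toric conjecture in bounded degree for random points of curves with CM

Let `a_{l,1}, …, a_{l,k}` (`l = 1, …, s`) be logarithms of algebraic numbers which are linearly
independent over `ℚ`, let `E_j = ℂ/Ω_j` (`j = 1, …, n`, they may be equal) be elliptic curves over the
algebraic numbers with complex multiplication by `α_j`, and let `u_{j,1}, …, u_{j,k}` be elliptic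
logarithms of algebraic points of `E_j` which are linearly independent over `k_j = End(E_j) ⊗ ℚ`. Let
`τ_l` be arbitrary complex numbers and `b_j` elliptic logarithms of algebraic points (for instance `0`).
We consider the random numbers and points

  `t_l = τ_l + ∑_i m_{l,i} a_{l,i}`,
  `p_j = b_j + ∑_i (m_{j,i,0} + m_{j,i,1} α_j) u_{j,i}`,  all `m ∈ A`,

where `A` is an arbitrary finite set of integers.

**Theorem.** For all `s`, `n`, `D`, `N` there are `k₀`, `C` and `δ > 0` such that for all `k ≥ k₀`, all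
these data, all `A` and all vector spaces `W` over the algebraic numbers of dimension at most `N` (for
instance the space generated by the monomials of bounded degree in the periods `ω_1`, `ω_2` and the
quasi-periods `η_1`, `η_2` of a curve): for all but `C |A|^((s+2n)k - δk)` of the `|A|^((s+2n)k)`
parameters `m` the points `p_j` are not in `Ω_j`, the numbers `℘(p_j)` are algebraic, and the `s + 2n`
numbers

  `t_1, …, t_s, p_1, …, p_n, ζ(p_1), …, ζ(p_n)`

satisfy no nonzero polynomial relation of total degree at most `D` with coefficients in `W`.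

For one curve `E` (all `E_j = E`) with algebraic `g_2`, `g_3` and algebraic `e^{τ_l}` the question is
whether the transcendence degree of the field generated by these `s + 2n` numbers and the four periods is
`s + 2n + 2`, where `2` is the transcendence degree of the field of the periods (Chudnovsky).

**The proof.** The numbers `t_l` are treated by the theorem on random tuples
(`Pool.Agent.Y918.RP.tuplesF`, Baker's theorem), and then the pairs `p_j`, `ζ(p_j)` by the theorem on
random points (`Pool.Agent.Y918.EL.cmpoints`), over the space generated by the products of elements of `W`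
and monomials in the `t_l`.
-/

set_option autoImplicit false

open scoped PeriodPair

noncomputable section

namespace Pool.Agent.Results.MP_8da9ea_nt.RandomPointsCM

/-- The field of algebraic numbers. -/
abbrev Qbar : IntermediateField ℚ ℂ := algebraicClosure ℚ ℂ

/-- The Weierstrass zeta function
`ζ(z) = 1/z + ∑_{l ≠ 0} (1/(z - l) + 1/l + z/l²)` (in Lean `1/0 = 0`, so that the term with `l = 0`
of the sum below is `1/z`). -/
def zetaW (L : PeriodPair) (z : ℂ) : ℂ := ∑' l : L.lattice, (1 / (z - l) + 1 / l + z / l ^ 2)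

/-- `β` belongs to the field `k = End(ℂ/Ω) ⊗ ℚ`: some multiple `m β`, `m ≥ 1`, maps the lattice `Ω`
to itself. -/
def IsMult (L : PeriodPair) (β : ℂ) : Prop :=
  ∃ m : ℕ, 0 < m ∧ ∀ ω ∈ L.lattice, (m : ℂ) * β * ω ∈ L.lattice

/-- The numbers `w_j` are linearly independent over `k`. -/
def IndepMult (L : PeriodPair) {R : ℕ} (w : Fin R → ℂ) : Prop :=
  ∀ β : Fin R → ℂ, (∀ j, IsMult L (β j)) → ∑ j, β j * w j = 0 → ∀ j, β j = 0

/-- Some nonzero polynomial of total degree at most `D` with coefficients in `W` vanishes at `x`. -/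
def Related (W : Submodule Qbar ℂ) (D : ℕ) {σ : Type} (x : σ → ℂ) : Prop :=
  ∃ Q : MvPolynomial σ ℂ, Q ≠ 0 ∧ Q.totalDegree ≤ D ∧ (∀ e, Q.coeff e ∈ W) ∧
    MvPolynomial.eval x Q = 0

/-- The logarithms `t_l = τ_l + ∑_i m_{l,i} a_{l,i}`. -/
def logarithm {s k : ℕ} (τ : Fin s → ℂ) (a : Fin s → Fin k → ℂ) (m : Fin s → Fin k → ℤ)
    (l : Fin s) : ℂ := τ l + ∑ i, (m l i : ℂ) * a l i

/-- The points `p_j = b_j + ∑_i (m_{j,i,0} + m_{j,i,1} α_j) u_{j,i}`. -/
def point {n k : ℕ} (α b : Fin n → ℂ) (u : Fin n → Fin k → ℂ) (m : Fin n → Fin k × Fin 2 → ℤ)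
    (j : Fin n) : ℂ := b j + ∑ i, ((m j (i, 0) : ℂ) + m j (i, 1) * α j) * u j i

open Pool.Agent.W245.EB (NoRelTot)
open Pool.Agent.Y918.EL (CM Good pt ext le_ext mem_ext ext_finite ext_finrank cmpoints card_image_cast)
open Pool.Agent.Y918.RP (RelW tuplesF fine_li li_QB_of_logs)

open Classical in
/-- The random logarithms. -/
theorem bound_logs {s k D : ℕ} {C₁ : ℕ} {δ₁ : ℝ} {A : Finset ℤ} (τ : Fin s → ℂ)
    (a : Fin s → Fin k → ℂ) (W : Submodule Qbar ℂ)
    (h : (((Fintype.piFinset fun _ : Fin s => Fintype.piFinset fun _ : Fin k =>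
        A.image (fun z : ℤ => (z : ℚ))).filter
      (fun P : Fin s → Fin k → ℚ => RelW W D (fun l => τ l + ∑ i : Fin k, (P l i : ℂ) * a l i))).card :
        ℝ) ≤ C₁ * (A.card : ℝ) ^ ((s * k : ℝ) - δ₁ * k)) :
    (((Fintype.piFinset fun _ : Fin s => Fintype.piFinset fun _ : Fin k => A).filter
      (fun m : Fin s → Fin k → ℤ => RelW W D (logarithm τ a m))).card : ℝ) ≤
      C₁ * (A.card : ℝ) ^ ((s * k : ℝ) - δ₁ * k) := by
  refine le_trans (Nat.cast_le.2 ?_) h
  refine Pool.Agent.Y918.EL.card_cast A (fun m : Fin s → Fin k → ℤ => RelW W D (logarithm τ a m))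
    (fun P : Fin s → Fin k → ℚ => RelW W D (fun l => τ l + ∑ i : Fin k, (P l i : ℂ) * a l i)) ?_
  intro m hm
  have e1 : (fun l => τ l + ∑ i : Fin k, (((m l i : ℤ) : ℚ) : ℂ) * a l i) = logarithm τ a m := by
    funext l
    unfold logarithm
    simp only [Rat.cast_intCast]
  change RelW W D (fun l => τ l + ∑ i : Fin k, (((m l i : ℤ) : ℚ) : ℂ) * a l i)
  rw [e1]
  exact hm

open Classical in
/-- **Main result.** -/
theorem result (s n D N : ℕ) : ∃ (k₀ C : ℕ) (δ : ℝ), 0 < δ ∧ ∀ k ≥ k₀,
    -- logarithms of algebraic numbers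
    ∀ a : Fin s → Fin k → ℂ, (∀ l i, IsAlgebraic ℚ (Complex.exp (a l i))) →
    (∀ l, LinearIndependent ℚ (a l)) →
    -- elliptic curves with complex multiplications `α j`
    ∀ L : Fin n → PeriodPair, (∀ j, IsAlgebraic ℚ (L j).g₂) → (∀ j, IsAlgebraic ℚ (L j).g₃) →
    ∀ α : Fin n → ℂ, (∀ j, (α j).im ≠ 0) →
    (∀ j, ∀ ω ∈ (L j).lattice, α j * ω ∈ (L j).lattice) →
    -- elliptic logarithms of algebraic points
    ∀ u : Fin n → Fin k → ℂ, (∀ j i, u j i ∈ (L j).lattice ∨ IsAlgebraic ℚ (℘[L j] (u j i))) →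
    (∀ j, IndepMult (L j) (u j)) →
    ∀ (τ : Fin s → ℂ) (b : Fin n → ℂ), (∀ j, b j ∈ (L j).lattice ∨ IsAlgebraic ℚ (℘[L j] (b j))) →
    ∀ A : Finset ℤ, A.Nonempty →
    ∀ W : Submodule Qbar ℂ, Module.Finite Qbar W → Module.finrank Qbar W ≤ N →
    ((((Fintype.piFinset fun _ : Fin s => Fintype.piFinset fun _ : Fin k => A) ×ˢ
        (Fintype.piFinset fun _ : Fin n => Fintype.piFinset fun _ : Fin k × Fin 2 => A)).filter
      (fun m => ¬ ((∀ j, point α b u m.2 j ∉ (L j).lattice ∧
          IsAlgebraic ℚ (℘[L j] (point α b u m.2 j))) ∧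
        ¬ Related W D (Sum.elim (logarithm τ a m.1) (Sum.elim (point α b u m.2)
          (fun j => zetaW (L j) (point α b u m.2 j))))))).card : ℝ) ≤
      C * (A.card : ℝ) ^ (((s + 2 * n) * k : ℝ) - δ * k) := by
  obtain ⟨k₁, C₁, δ₁, hδ₁, _, h₁⟩ := tuplesF D s N
  obtain ⟨k₂, C₂, δ₂, hδ₂, h₂⟩ := cmpoints n D ((N + (s + 1)) ^ (1 + D))
  refine ⟨max k₁ k₂, C₁ + C₂, min δ₁ δ₂, lt_min hδ₁ hδ₂,
    fun k hk a ha ha' L h2 h3 α hα hm u hu hind τ b hb A hA W hW hWN => ?_⟩
  let d : Fin n → CM := fun j =>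
    { L := L j
      g2 := h2 j
      g3 := h3 j
      α := α j
      hα := hα j
      hm := hm j }
  have ha1 : (1 : ℝ) ≤ (A.card : ℝ) := by exact_mod_cast hA.card_pos
  have ha0 : (0 : ℝ) < (A.card : ℝ) := by linarith
  -- the logarithms
  have hb1 := bound_logs (D := D) (δ₁ := δ₁) (C₁ := C₁) (A := A) τ a W (by
    have := h₁ k ((le_max_left _ _).trans hk) (A.image (fun z : ℤ => (z : ℚ))) (hA.image _) W hW hWN
      (fun l (p : Fin k → ℚ) => τ l + ∑ i : Fin k, (p i : ℂ) * a l i)
      (fun l => fine_li (li_QB_of_logs (ha l) (ha' l)) (τ l))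
    rw [card_image_cast] at this
    exact this)
  -- the space for the second step
  let v : (Fin s → Fin k → ℤ) → Option (Fin s) → ℂ := fun m o => o.elim 1 (logarithm τ a m)
  let V : (Fin s → Fin k → ℤ) → Submodule Qbar ℂ := fun m => ext W (v m)
  have hVf : ∀ m, Module.Finite Qbar (V m) := fun m => ext_finite W _
  have hVr : ∀ m, Module.finrank Qbar (V m) ≤ N + (s + 1) := fun m => by
    refine (ext_finrank W _).trans ?_
    rw [Fintype.card_option, Fintype.card_fin]
    exact Nat.add_le_add_right hWN _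
  have hP : ∀ m, Module.Finite Qbar (V m ^ (1 + D) : Submodule Qbar ℂ) ∧
      Module.finrank Qbar (V m ^ (1 + D) : Submodule Qbar ℂ) ≤ (N + (s + 1)) ^ (1 + D) := fun m =>
    have := hVf m
    Pool.Agent.W245.finrank_pow_le (V m) _ (hVr m) (1 + D)
  have hb2 : ∀ m, _ := fun m => h₂ k ((le_max_right _ _).trans hk) d u
    (fun j => ⟨hu j, fun β hβ h0 => funext fun i => hind j β hβ h0 i⟩) b hb A hA
    (V m ^ (1 + D) : Submodule Qbar ℂ) (hP m).1 (hP m).2
  obtain ⟨XA, hXA⟩ : ∃ X : Finset (Fin s → Fin k → ℤ),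
      X = Fintype.piFinset fun _ : Fin s => Fintype.piFinset fun _ : Fin k => A := ⟨_, rfl⟩
  obtain ⟨XM, hXM⟩ : ∃ X : Finset (Fin n → Fin k × Fin 2 → ℤ),
      X = Fintype.piFinset fun _ : Fin n => Fintype.piFinset fun _ : Fin k × Fin 2 => A := ⟨_, rfl⟩
  rw [← hXA] at hb1
  rw [← hXM] at hb2
  rw [← hXA, ← hXM]
  have hXAc : (XA.card : ℝ) = (A.card : ℝ) ^ (s * k : ℝ) := by
    rw [hXA, Fintype.card_piFinset_const, Fintype.card_piFinset_const]
    push_cast
    rw [← pow_mul, ← Real.rpow_natCast]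
    congr 1
    push_cast
    ring
  have hXMc : (XM.card : ℝ) = (A.card : ℝ) ^ (2 * n * k : ℝ) := by
    rw [hXM, Fintype.card_piFinset_const, Fintype.card_piFinset, Finset.prod_const,
      Finset.card_univ, Fintype.card_prod, Fintype.card_fin, Fintype.card_fin]
    push_cast
    rw [← pow_mul, ← Real.rpow_natCast]
    congr 1
    push_cast
    ring
  have hsub : (XA ×ˢ XM).filter
      (fun m => ¬ ((∀ j, point α b u m.2 j ∉ (L j).lattice ∧
          IsAlgebraic ℚ (℘[L j] (point α b u m.2 j))) ∧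
        ¬ Related W D (Sum.elim (logarithm τ a m.1) (Sum.elim (point α b u m.2)
          (fun j => zetaW (L j) (point α b u m.2 j)))))) ⊆
      ((XA.filter (fun m => RelW W D (logarithm τ a m))) ×ˢ XM) ∪
        XA.biUnion (fun m => (XM.filter (fun m' => ¬ Good d b u (V m ^ (1 + D)) D m')).image
          (fun m' => (m, m'))) := by
    rintro ⟨m, m'⟩ hmm
    rw [Finset.mem_filter, Finset.mem_product] at hmm
    obtain ⟨⟨hm1, hm2⟩, hbad⟩ := hmm
    rw [Finset.mem_union]
    by_cases hR : RelW W D (logarithm τ a m)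
    · left
      rw [Finset.mem_product, Finset.mem_filter]
      exact ⟨⟨hm1, hR⟩, hm2⟩
    · right
      rw [Finset.mem_biUnion]
      refine ⟨m, hm1, ?_⟩
      rw [Finset.mem_image]
      refine ⟨m', ?_, rfl⟩
      rw [Finset.mem_filter]
      refine ⟨hm2, fun hG => hbad ?_⟩
      obtain ⟨hn, hr⟩ := hG
      have hn' : ∀ j, point α b u m' j ∉ (L j).lattice := fun j => (hn j).1
      refine ⟨fun j => ⟨hn' j, (hn j).2.resolve_left (hn' j)⟩, ?_⟩
      have hT : NoRelTot W D (logarithm τ a m) := by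
        intro Q hQ1 hQ2 hQ3
        by_contra hQ
        exact hR ⟨Q, hQ, hQ2, fun i => (MvPolynomial.degreeOf_le_totalDegree Q i).trans hQ1, hQ3⟩
      have h1V : (1 : ℂ) ∈ V m := mem_ext W (v m) none
      have hWV : W ≤ V m ^ 1 := by
        rw [pow_one]
        exact le_ext W _
      have happ := NoRelTot.append h1V hWV (x := logarithm τ a m) (fun i => mem_ext W (v m) (some i))
        hT hr
      rintro ⟨Q, hQ, hQd, hQW, hQ0⟩
      apply hQ
      apply happ Q hQd hQW
      rw [← hQ0]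
      congr 2
      funext i
      rcases i with i | i | i
      · rfl
      · rfl
      · exact Pool.Agent.W245.EB.zt_of_notMem (hn' i)
  have hcard2 : ((((XA.filter (fun m => RelW W D (logarithm τ a m))) ×ˢ XM) ∪
      XA.biUnion (fun m => (XM.filter (fun m' => ¬ Good d b u (V m ^ (1 + D)) D m')).image
        (fun m' => (m, m')))).card : ℝ) ≤
      ((XA.filter (fun m => RelW W D (logarithm τ a m))).card : ℝ) * XM.card +
        ∑ m ∈ XA, ((XM.filter (fun m' => ¬ Good d b u (V m ^ (1 + D)) D m')).card : ℝ) := by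
    refine le_trans (Nat.cast_le.2 (Finset.card_union_le _ _)) ?_
    rw [Nat.cast_add, Finset.card_product, Nat.cast_mul]
    refine add_le_add_right ?_ _
    refine le_trans (Nat.cast_le.2 Finset.card_biUnion_le) ?_
    rw [Nat.cast_sum]
    exact Finset.sum_le_sum fun m _ => Nat.cast_le.2 Finset.card_image_le
  refine (Nat.cast_le.2 (Finset.card_le_card hsub)).trans (hcard2.trans ?_)
  have hk0 : (0 : ℝ) ≤ k := Nat.cast_nonneg k
  have ht1 : ((XA.filter (fun m => RelW W D (logarithm τ a m))).card : ℝ) * XM.card ≤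
      C₁ * (A.card : ℝ) ^ (((s + 2 * n) * k : ℝ) - min δ₁ δ₂ * k) := by
    calc ((XA.filter (fun m => RelW W D (logarithm τ a m))).card : ℝ) * XM.card
        ≤ (C₁ * (A.card : ℝ) ^ ((s * k : ℝ) - δ₁ * k)) * (A.card : ℝ) ^ (2 * n * k : ℝ) := by
          rw [hXMc]
          exact mul_le_mul_of_nonneg_right hb1 (Real.rpow_nonneg ha0.le _)
      _ = C₁ * (A.card : ℝ) ^ (((s + 2 * n) * k : ℝ) - δ₁ * k) := by
          rw [mul_assoc, ← Real.rpow_add ha0]
          congr 2
          ring
      _ ≤ _ := by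
          apply mul_le_mul_of_nonneg_left _ (Nat.cast_nonneg _)
          apply Real.rpow_le_rpow_of_exponent_le ha1
          have := mul_le_mul_of_nonneg_right (min_le_left δ₁ δ₂) hk0
          linarith
  have ht2 : ∑ m ∈ XA, ((XM.filter (fun m' => ¬ Good d b u (V m ^ (1 + D)) D m')).card : ℝ) ≤
      C₂ * (A.card : ℝ) ^ (((s + 2 * n) * k : ℝ) - min δ₁ δ₂ * k) := by
    calc ∑ m ∈ XA, ((XM.filter (fun m' => ¬ Good d b u (V m ^ (1 + D)) D m')).card : ℝ)
        ≤ ∑ m ∈ XA, C₂ * (A.card : ℝ) ^ ((2 * n * k : ℝ) - δ₂ * k) :=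
          Finset.sum_le_sum fun m _ => hb2 m
      _ = C₂ * (A.card : ℝ) ^ (((s + 2 * n) * k : ℝ) - δ₂ * k) := by
          rw [Finset.sum_const, nsmul_eq_mul, hXAc, mul_left_comm, ← Real.rpow_add ha0]
          congr 2
          ring
      _ ≤ _ := by
          apply mul_le_mul_of_nonneg_left _ (Nat.cast_nonneg _)
          apply Real.rpow_le_rpow_of_exponent_le ha1
          have := mul_le_mul_of_nonneg_right (min_le_right δ₁ δ₂) hk0
          linarith
  refine (add_le_add ht1 ht2).trans (le_of_eq ?_)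
  push_cast
  ring

end Pool.Agent.Results.MP_8da9ea_nt.RandomPointsCM
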