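import Pool.Agent.Results.MP_8da9ea_nt.AlmostAllTranslates
import Pool.Agent.X174.WinInt

/-!
# Freeness of ALL translates by logarithms of points with integral coordinates in cubes around thin sequences

Let `Λ` be a lattice with rational invariants, `E` the elliptic curve. For all `n`, `s` (`n + s ≥ 1`), `q`, `δ`, `d` there is
`c > 0` such that for every sequence `v ≥ 1` of exponent of convergence at most `τ` (for `v_i = i ^ a` this is `1 / a`, for
`v_i = b ^ i` it is `0`) and `ρ < 1` and all sequences `w_k ∈ ℂ^q`, `z_k ∈ ℂ^n`, `y_k ∈ ℂ^s` there is ONE set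
`E ⊂ ℝ^(n+s)` of Hausdorff dimension at most `(n + s - c + τ) / (1 - ρ)` such that for each `α` outside `E` and each `k`,
for all but finitely many `i` and ALL integers `a_1, …, a_(n+s)` in the cube `|a_j - α_j v_i| ≤ v_i ^ ρ`: for all translates
of `(z_k, y_k)` by logarithms of the point of `E^n × G_m^s` with the coordinates `(a_i, ±β_i)` and `a_(n+l)`, the
polynomial relations of degree at most `δ` over number fields of degree at most `d` between the coordinates `w_k`, the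
logarithms and the points are identities in the logarithms.

The number of exceptions is from the starting result `AlmostAllTranslates`.
-/

set_option autoImplicit false

namespace Pool.Agent.Results.MP_8da9ea_nt.TranslatesInCubes

open AlmostAllTranslates (zeta logarithms points FreeOverPoints IsTranslate)

/-- the exponent of convergence of the sequence `v` is at most `τ` -/
def ExpLe (v : ℕ → ℝ) (τ : ℝ) : Prop := ∀ t : ℝ, τ < t → Summable (fun n : ℕ => (v n) ^ (-t))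

/-- **Theorem.** Let `Λ` be a lattice with rational invariants, `n + s ≥ 1`. For all `q`, `δ`, `d` there is `0 < c < 1` such
that for every sequence `v ≥ 1` of exponent of convergence at most `τ ≥ 0`, every `ρ < 1` and all sequences `w_k ∈ ℂ^q`,
`z_k ∈ ℂ^n`, `y_k ∈ ℂ^s` there is a set `E ⊂ ℝ^(n+s)` of Hausdorff dimension at most `(n + s - c + τ) / (1 - ρ)` such that
for each `α` outside `E` and each `k`, for all but finitely many `i` and ALL integers `a_j` with `|a_j - α_j v_i| ≤ v_i ^ ρ`,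
`j ≤ n + s`: all translates of `(z_k, y_k)` by logarithms of the point given by `a` are free over their points and `w_k`.
The sequences `v_i = (i + 1) ^ a` and `v_i = b ^ i` have exponent of convergence at most `1 / a` and `0`. -/
theorem result :
    (∀ (Λ : PeriodPair) (a b : ℚ), Λ.g₂ = a → Λ.g₃ = b → ∀ n s q δ d : ℕ, 1 ≤ n + s →
      ∃ c : ℝ, 0 < c ∧ c < 1 ∧
      ∀ (v : ℕ → ℝ) (τ ρ : ℝ), (∀ i, 1 ≤ v i) → 0 ≤ τ → ExpLe v τ → ρ < 1 →
      ∀ (w : ℕ → Fin q → ℂ) (z : ℕ → Fin n → ℂ) (y : ℕ → Fin s → ℂ),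
      ∃ E : Set (Fin (n + s) → ℝ), dimH E ≤ ENNReal.ofReal (((n : ℝ) + s - c + τ) / (1 - ρ)) ∧
        ∀ α : Fin (n + s) → ℝ, α ∉ E → ∀ k : ℕ, ∃ i₀ : ℕ, ∀ i : ℕ, i₀ ≤ i →
          ∀ x : Fin (n + s) → ℤ, (∀ j, |(x j : ℝ) - α j * v i| ≤ (v i) ^ ρ) →
            ∀ (p : Fin n → ℂ) (t : Fin s → ℂ), IsTranslate Λ (z k) (y k) (fun j => (x j : ℂ)) p t →
              FreeOverPoints Λ δ d (w k) p t) ∧
    (∀ a : ℝ, 0 < a → ExpLe (fun n : ℕ => ((n : ℝ) + 1) ^ a) (1 / a)) ∧
    (∀ b : ℝ, 1 < b → ExpLe (fun n : ℕ => b ^ n) 0) := by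
  refine ⟨fun Λ a b ha hb n s q δ d hns => ?_, fun κ hκ => Pool.Agent.Y854.GM.expLe_pow κ hκ,
    fun b hb => Pool.Agent.Y854.GM.expLe_geom b hb⟩
  obtain ⟨c1, hc1, C, h⟩ := AlmostAllTranslates.result Λ a b ha hb n s q 1 le_rfl δ d
  set c : ℝ := min c1 (1 / 2) with hc
  have hc0 : 0 < c := lt_min hc1 (by norm_num)
  have hca : c ≤ c1 := min_le_left _ _
  have hcb : c ≤ 1 / 2 := min_le_right _ _
  have hns1 : (1 : ℝ) ≤ (n : ℝ) + s := by exact_mod_cast hns
  refine ⟨c, hc0, by linarith, fun v τ ρ hv hτ hE hρ w z y => ?_⟩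
  have key : ∀ k : ℕ, ∃ E : Set (Fin (n + s) → ℝ), dimH E ≤ ENNReal.ofReal (((n : ℝ) + s - c + τ) / (1 - ρ)) ∧
      ∀ α : Fin (n + s) → ℝ, α ∉ E → ∃ i₀ : ℕ, ∀ i : ℕ, i₀ ≤ i →
          ∀ x : Fin (n + s) → ℤ, (∀ j, |(x j : ℝ) - α j * v i| ≤ (v i) ^ ρ) →
            ¬ ¬ ∀ (p : Fin n → ℂ) (t : Fin s → ℂ), IsTranslate Λ (z k) (y k) (fun j => (x j : ℂ)) p t →
              FreeOverPoints Λ δ d (w k) p t := by
    intro k
    obtain ⟨C', hC'⟩ := Pool.Agent.X174.intTuples (κ := Fin (n + s))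
      (fun α => ¬ ∀ (p : Fin n → ℂ) (t : Fin s → ℂ), IsTranslate Λ (z k) (y k) α p t → FreeOverPoints Λ δ d (w k) p t)
      (c := c1) (C := C) (fun T hT => by
        obtain ⟨h1, h2⟩ := h (w k) (z k) (y k) T hT
        rw [Fintype.card_fin]
        exact ⟨h1, h2⟩)
    refine Pool.Agent.X174.winTupZ (fun x : Fin (n + s) → ℤ => ¬ ∀ (p : Fin n → ℂ) (t : Fin s → ℂ),
      IsTranslate Λ (z k) (y k) (fun j => (x j : ℂ)) p t → FreeOverPoints Λ δ d (w k) p t) hv hτ hE
      (by linarith) hρ ⟨|C'|, fun T hT => ?_⟩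
    have hT1 : (1 : ℝ) ≤ T := by exact_mod_cast hT
    refine (hC' T hT).trans ?_
    rw [Fintype.card_fin]
    calc C' * (T : ℝ) ^ (((n + s : ℕ) : ℝ) - c1) ≤ |C'| * (T : ℝ) ^ (((n + s : ℕ) : ℝ) - c1) :=
          mul_le_mul_of_nonneg_right (le_abs_self C') (by positivity)
      _ ≤ |C'| * (T : ℝ) ^ ((n : ℝ) + s - c) := by
          apply mul_le_mul_of_nonneg_left _ (abs_nonneg C')
          apply Real.rpow_le_rpow_of_exponent_le hT1
          push_cast
          linarith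
  choose Es hEs1 hEs2 using key
  refine ⟨⋃ k, Es k, ?_, fun α hα k => ?_⟩
  · rw [dimH_iUnion]
    exact iSup_le hEs1
  · obtain ⟨i₀, hi⟩ := hEs2 k α (fun hm => hα (Set.mem_iUnion.2 ⟨_, hm⟩))
    exact ⟨i₀, fun i hi1 x hx => not_not.1 (hi i hi1 x hx)⟩

end Pool.Agent.Results.MP_8da9ea_nt.TranslatesInCubes
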